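import Pool.Agent.MP_ab344f_co.Defs

namespace Pool.Agent.MP_ab344f_co

open Finset

variable {r : ℕ}

lemma marginal_eq (a : Finset (Fin r) → ℝ) (i : Fin r) :
    marginal a i = ∑ R, if i ∈ R then a R else 0 := by
  unfold marginal
  rw [Finset.sum_filter]

lemma le_marginal {a : Finset (Fin r) → ℝ} (ha : ∀ R, 0 ≤ a R) {i : Fin r} {x : Finset (Fin r)}
    (hi : i ∈ x) : a x ≤ marginal a i := by
  unfold marginal
  exact Finset.single_le_sum (f := a) (fun R _ => ha R) (by simp [hi])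

lemma marginal_nonneg {a : Finset (Fin r) → ℝ} (ha : ∀ R, 0 ≤ a R) (i : Fin r) :
    0 ≤ marginal a i := by
  unfold marginal
  exact Finset.sum_nonneg (fun R _ => ha R)

/-- Summing a function of the colour over the common colours. -/
lemma sum_inter (a : Finset (Fin r) → ℝ) (y : Finset (Fin r)) (f : Fin r → ℝ) :
    ∑ x, a x * ∑ i ∈ x ∩ y, f i = ∑ i ∈ y, marginal a i * f i := by
  have h1 : ∀ x : Finset (Fin r), a x * ∑ i ∈ x ∩ y, f i
      = ∑ i ∈ y, (if i ∈ x then a x else 0) * f i := by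
    intro x
    rw [Finset.inter_comm, ← Finset.filter_mem_eq_inter, Finset.sum_filter, Finset.mul_sum]
    refine Finset.sum_congr rfl (fun i _ => ?_)
    split_ifs <;> simp
  simp_rw [h1]
  rw [Finset.sum_comm]
  refine Finset.sum_congr rfl (fun i _ => ?_)
  rw [marginal_eq, Finset.sum_mul]

lemma sum_inter_inv_le {a : Finset (Fin r) → ℝ} (y : Finset (Fin r)) :
    ∑ x, a x * ∑ i ∈ x ∩ y, (marginal a i)⁻¹ ≤ y.card := by
  rw [sum_inter]
  calc ∑ i ∈ y, marginal a i * (marginal a i)⁻¹ ≤ ∑ i ∈ y, (1 : ℝ) := by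
        refine Finset.sum_le_sum (fun i _ => ?_)
        exact mul_inv_le_one
    _ = y.card := by simp

lemma cs_two {A B g w z : ℝ} (hA : 0 < A) (hB : 0 < B) (hg : A + B ≤ g) :
    (w + z) ^ 2 ≤ g * (w ^ 2 * A⁻¹ + z ^ 2 * B⁻¹) := by
  have h1 : (w + z) ^ 2 ≤ (A + B) * (w ^ 2 * A⁻¹ + z ^ 2 * B⁻¹) := by
    have : (A + B) * (w ^ 2 * A⁻¹ + z ^ 2 * B⁻¹) - (w + z) ^ 2
        = (w * B - z * A) ^ 2 / (A * B) := by
      field_simp
      ring
    have h2 : 0 ≤ (w * B - z * A) ^ 2 / (A * B) := by positivity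
    linarith
  have h3 : 0 ≤ w ^ 2 * A⁻¹ + z ^ 2 * B⁻¹ := by positivity
  exact h1.trans (mul_le_mul_of_nonneg_right hg h3)

/-- The weighted inequality. -/
lemma weighted {a b : Finset (Fin r) → ℝ} (ha : ∀ R, 0 ≤ a R) (hb : ∀ R, 0 ≤ b R) {g : ℝ}
    (hg0 : 0 ≤ g) (hg : ∀ i, marginal a i + marginal b i ≤ g) (w z : Finset (Fin r) → ℝ) :
    ∑ x, ∑ y, a x * b y * ((x ∩ y).card * (w y + z x) ^ 2)
      ≤ g * (∑ y, b y * w y ^ 2 * y.card + ∑ x, a x * z x ^ 2 * x.card) := by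
  have step1 : ∀ x y : Finset (Fin r), a x * b y * ((x ∩ y).card * (w y + z x) ^ 2)
      ≤ g * (b y * w y ^ 2 * (a x * ∑ i ∈ x ∩ y, (marginal a i)⁻¹)
          + a x * z x ^ 2 * (b y * ∑ i ∈ y ∩ x, (marginal b i)⁻¹)) := by
    intro x y
    rcases (ha x).eq_or_lt with h0 | hx
    · simp [← h0]
    rcases (hb y).eq_or_lt with h0 | hy
    · simp [← h0]
    have h2 : ((x ∩ y).card : ℝ) * (w y + z x) ^ 2
        ≤ ∑ i ∈ x ∩ y, g * (w y ^ 2 * (marginal a i)⁻¹ + z x ^ 2 * (marginal b i)⁻¹) := by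
      rw [← nsmul_eq_mul, ← Finset.sum_const]
      refine Finset.sum_le_sum (fun i hi => ?_)
      rw [Finset.mem_inter] at hi
      exact cs_two (hx.trans_le (le_marginal ha hi.1)) (hy.trans_le (le_marginal hb hi.2)) (hg i)
    rw [← Finset.mul_sum, Finset.sum_add_distrib, ← Finset.mul_sum, ← Finset.mul_sum] at h2
    rw [Finset.inter_comm y x]
    have h3 := mul_le_mul_of_nonneg_left h2 (mul_pos hx hy).le
    refine h3.trans (le_of_eq ?_)
    ring
  calc ∑ x, ∑ y, a x * b y * ((x ∩ y).card * (w y + z x) ^ 2)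
      ≤ ∑ x, ∑ y, g * (b y * w y ^ 2 * (a x * ∑ i ∈ x ∩ y, (marginal a i)⁻¹)
          + a x * z x ^ 2 * (b y * ∑ i ∈ y ∩ x, (marginal b i)⁻¹)) :=
        Finset.sum_le_sum (fun x _ => Finset.sum_le_sum (fun y _ => step1 x y))
    _ = g * (∑ y, b y * w y ^ 2 * (∑ x, a x * ∑ i ∈ x ∩ y, (marginal a i)⁻¹)
          + ∑ x, a x * z x ^ 2 * (∑ y, b y * ∑ i ∈ y ∩ x, (marginal b i)⁻¹)) := by
        simp_rw [← Finset.mul_sum, Finset.sum_add_distrib]
        congr 2
        · rw [Finset.sum_comm]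
          simp_rw [← Finset.mul_sum]
        · simp_rw [← Finset.mul_sum]
    _ ≤ _ := by
        refine mul_le_mul_of_nonneg_left (add_le_add ?_ ?_) hg0
        · refine Finset.sum_le_sum (fun y _ => ?_)
          exact mul_le_mul_of_nonneg_left (sum_inter_inv_le y) (mul_nonneg (hb y) (sq_nonneg _))
        · refine Finset.sum_le_sum (fun x _ => ?_)
          exact mul_le_mul_of_nonneg_left (sum_inter_inv_le x) (mul_nonneg (ha x) (sq_nonneg _))

/-- A set in the support has more than `1/g` colours. -/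
lemma one_lt_mul_card {a b : Finset (Fin r) → ℝ} (ha : ∀ R, 0 ≤ a R) (hb : ∀ R, 0 ≤ b R)
    (hb1 : ∑ R, b R = 1) (hc : ∀ x y : Finset (Fin r), x ∩ y = ∅ → a x = 0 ∨ b y = 0) {g : ℝ}
    (hg : ∀ i, marginal a i + marginal b i ≤ g) {x : Finset (Fin r)} (hx : 0 < a x) :
    1 < g * x.card := by
  have h1 : (1 : ℝ) ≤ ∑ i ∈ x, marginal b i * 1 := by
    rw [← sum_inter]
    refine hb1.ge.trans (Finset.sum_le_sum (fun y _ => ?_))
    rcases (hb y).eq_or_lt with h0 | hy
    · simp [← h0]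
    have hne : (y ∩ x).Nonempty := by
      rw [Finset.nonempty_iff_ne_empty, Finset.inter_comm]
      intro h
      rcases hc x y h with h | h <;> linarith
    have : (1 : ℝ) ≤ ∑ i ∈ y ∩ x, (1 : ℝ) := by
      simp only [Finset.sum_const, nsmul_eq_mul, mul_one, Nat.one_le_cast]
      exact hne.card_pos
    nlinarith
  have h2 : ∑ i ∈ x, marginal b i * 1 ≤ ∑ i ∈ x, (g - a x) := by
    refine Finset.sum_le_sum (fun i hi => ?_)
    have := le_marginal ha hi
    have := hg i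
    linarith
  rw [Finset.sum_const, nsmul_eq_mul] at h2
  have h3 : (0 : ℝ) < x.card := by
    rcases Nat.eq_zero_or_pos x.card with h | h
    · rw [h] at h2
      simp at h2
      simp only [mul_one] at h1
      linarith
    · exact_mod_cast h
  nlinarith

lemma sum_card_eq (a : Finset (Fin r) → ℝ) : ∑ x, a x * x.card = ∑ i, marginal a i := by
  have := sum_inter a Finset.univ (fun _ => (1 : ℝ))
  simpa using this

lemma arithA {u v σ p q K L : ℝ} (hu : 0 < u) (hv : 0 < v) (hK : 0 ≤ K) (hL : 0 ≤ L)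
    (hKp : 1 ≤ K * p) (hLq : 1 ≤ L * q) (hKl : u + v - p ≤ K * (u * v))
    (hLl : u + v - q ≤ L * (u * v)) (hσ : p + q ≤ σ) (h1 : 1 ≤ u * v)
    (h2 : 2 * u + v - σ = u ^ 2 * v) : 1 ≤ K * L := by
  have huv : 0 < u * v := mul_pos hu hv
  rcases le_total p u with hp | hp
  · have : p * (u * v) ≤ L * (u * v) := by nlinarith [mul_nonneg (sub_nonneg.2 hp) (sub_nonneg.2 h1)]
    have : p ≤ L := le_of_mul_le_mul_right this huv
    nlinarith
  rcases le_total q u with hq | hq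
  · have : q * (u * v) ≤ K * (u * v) := by nlinarith [mul_nonneg (sub_nonneg.2 hq) (sub_nonneg.2 h1)]
    have : q ≤ K := le_of_mul_le_mul_right this huv
    nlinarith
  have hP : u ^ 2 * v ≤ u + v - p := by linarith
  have hQ : u ^ 2 * v ≤ u + v - q := by linarith
  have h0 : 0 < u ^ 2 * v := by positivity
  have h3 : (u * v) ^ 2 ≤ (u + v - p) * (u + v - q) := by
    nlinarith [mul_nonneg (sub_nonneg.2 hp) (sub_nonneg.2 hq)]
  have h4 : (u + v - p) * (u + v - q) ≤ (K * (u * v)) * (L * (u * v)) :=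
    mul_le_mul hKl hLl (by linarith) (by positivity)
  have h5 : 1 * (u * v) ^ 2 ≤ (K * L) * (u * v) ^ 2 := by nlinarith
  exact le_of_mul_le_mul_right h5 (by positivity)

lemma arithB {u v σ p q K L : ℝ} (hu : 0 < u) (hv : 0 < v) (hK : 0 ≤ K) (hL : 0 ≤ L)
    (hKp : 1 ≤ K * p) (hLq : 1 ≤ L * q) (hKl : u + v - p ≤ K * (u * v))
    (hLl : u + v - q ≤ L * (u * v)) (hσ : p + q ≤ σ) (h1 : u * v ≤ 1)
    (h2 : u + 2 * v - σ = u * v ^ 2) : 1 ≤ K * L := by
  have huv : 0 < u * v := mul_pos hu hv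
  rcases le_total v p with hp | hp
  · have : p * (u * v) ≤ L * (u * v) := by nlinarith [mul_nonneg (sub_nonneg.2 hp) (sub_nonneg.2 h1)]
    have : p ≤ L := le_of_mul_le_mul_right this huv
    nlinarith
  rcases le_total v q with hq | hq
  · have : q * (u * v) ≤ K * (u * v) := by nlinarith [mul_nonneg (sub_nonneg.2 hq) (sub_nonneg.2 h1)]
    have : q ≤ K := le_of_mul_le_mul_right this huv
    nlinarith
  have h3 : (u * v) ^ 2 ≤ (u + v - p) * (u + v - q) := by
    nlinarith [mul_nonneg (sub_nonneg.2 hp) (sub_nonneg.2 hq)]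
  have h4 : (u + v - p) * (u + v - q) ≤ (K * (u * v)) * (L * (u * v)) :=
    mul_le_mul hKl hLl (by linarith) (by positivity)
  have h5 : 1 * (u * v) ^ 2 ≤ (K * L) * (u * v) ^ 2 := by nlinarith
  exact le_of_mul_le_mul_right h5 (by positivity)

end Pool.Agent.MP_ab344f_co
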