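import Mathlib

namespace Pool.Agent.MP_ab344f_co

/-- A feasible pair of the colouring problem on `r` colours. -/
def Feasible {r : ℕ} (a b : Finset (Fin r) → ℝ) : Prop :=
  (∀ R, a R ∈ Set.Icc (0 : ℝ) 1) ∧ (∀ R, b R ∈ Set.Icc (0 : ℝ) 1) ∧
    ∑ R, a R = 1 ∧ ∑ R, b R = 1 ∧
    ∀ R₁ R₂ : Finset (Fin r), R₁ ∩ R₂ = ∅ → a R₁ = 0 ∨ b R₂ = 0

/-- The total weight of the colour sets that contain colour `i`. -/
noncomputable def marginal {r : ℕ} (a : Finset (Fin r) → ℝ) (i : Fin r) : ℝ :=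
  ∑ R ∈ Finset.univ.filter (fun R : Finset (Fin r) => i ∈ R), a R

/-- The objective `m(a,b)`: the largest value of `a_i + b_i` over the colours `i`. -/
noncomputable def cost {r : ℕ} (a b : Finset (Fin r) → ℝ) : ℝ :=
  ⨆ i : Fin r, (marginal a i + marginal b i)

end Pool.Agent.MP_ab344f_co
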