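import Pool.Agent.MP_ab344f_co.Core

namespace Pool.Agent.MP_ab344f_co

open Finset

variable {r : ℕ}

/-- The average of `1 / (g |R| - 1)`. -/
noncomputable def avgInv (g : ℝ) (a : Finset (Fin r) → ℝ) : ℝ :=
  ∑ x, a x * (g * x.card - 1)⁻¹

/-- The average size of a colour set. -/
noncomputable def avgCard (a : Finset (Fin r) → ℝ) : ℝ := ∑ x, a x * x.card

section
variable {a : Finset (Fin r) → ℝ} {g : ℝ}

lemma avg_affine (ha1 : ∑ R, a R = 1) (c d : ℝ) :
    ∑ x, a x * (c + d * x.card) = c + d * avgCard a := by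
  unfold avgCard
  simp_rw [mul_add, Finset.sum_add_distrib, ← Finset.sum_mul, ha1, Finset.mul_sum]
  congr 1
  · ring
  · exact Finset.sum_congr rfl (fun x _ => by ring)

lemma avg_le_avg (ha : ∀ R, 0 ≤ a R) {f h : Finset (Fin r) → ℝ}
    (hfh : ∀ x, 0 < a x → f x ≤ h x) : ∑ x, a x * f x ≤ ∑ x, a x * h x := by
  refine Finset.sum_le_sum (fun x _ => ?_)
  rcases (ha x).eq_or_lt with h0 | hx
  · simp [← h0]
  · exact mul_le_mul_of_nonneg_left (hfh x hx) hx.le

lemma exists_pos (ha : ∀ R, 0 ≤ a R) (ha1 : ∑ R, a R = 1) : ∃ x, 0 < a x := by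
  by_contra h
  push Not at h
  have : ∑ R, a R ≤ 0 := Finset.sum_nonpos (fun x _ => h x)
  linarith

lemma avg_pos (ha : ∀ R, 0 ≤ a R) (ha1 : ∑ R, a R = 1) {f : Finset (Fin r) → ℝ}
    (hf : ∀ x, 0 < a x → 0 < f x) : 0 < ∑ x, a x * f x := by
  obtain ⟨x, hx⟩ := exists_pos ha ha1
  refine Finset.sum_pos' (fun y _ => ?_) ⟨x, Finset.mem_univ _, mul_pos hx (hf x hx)⟩
  rcases (ha y).eq_or_lt with h0 | hy
  · simp [← h0]
  · exact (mul_pos hy (hf y hy)).le

lemma avgInv_pos (ha : ∀ R, 0 ≤ a R) (ha1 : ∑ R, a R = 1)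
    (hs : ∀ x, 0 < a x → 1 < g * x.card) : 0 < avgInv g a :=
  avg_pos ha ha1 (fun x hx => inv_pos.2 (sub_pos.2 (hs x hx)))

lemma avgInv_jensen (ha : ∀ R, 0 ≤ a R) (ha1 : ∑ R, a R = 1)
    (hs : ∀ x, 0 < a x → 1 < g * x.card) : 1 ≤ avgInv g a * (g * avgCard a - 1) := by
  have hp : 0 < g * avgCard a - 1 := by
    have h := avg_pos ha ha1 (f := fun x => -1 + g * x.card) (fun x hx => by linarith [hs x hx])
    rw [avg_affine ha1] at h
    linarith
  set p := g * avgCard a - 1 with hpdef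
  have h1 : ∑ x, a x * ((2 / p + 1 / p ^ 2) + (-g / p ^ 2) * x.card) ≤ avgInv g a := by
    refine avg_le_avg ha (fun x hx => ?_)
    have hu : 0 < g * x.card - 1 := sub_pos.2 (hs x hx)
    have : (g * x.card - 1)⁻¹ - ((2 / p + 1 / p ^ 2) + (-g / p ^ 2) * x.card)
        = (p - (g * x.card - 1)) ^ 2 / (p ^ 2 * (g * x.card - 1)) := by
      field_simp
      ring
    have h2 : 0 ≤ (p - (g * x.card - 1)) ^ 2 / (p ^ 2 * (g * x.card - 1)) := by positivity
    linarith
  rw [avg_affine ha1] at h1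
  have h2 : (2 / p + 1 / p ^ 2) + (-g / p ^ 2) * avgCard a = 1 / p := by
    have : g * avgCard a = p + 1 := by linarith
    field_simp
    linarith
  rw [h2, div_le_iff₀ hp] at h1
  exact h1

lemma avgInv_chord (ha : ∀ R, 0 ≤ a R) (ha1 : ∑ R, a R = 1)
    (hs : ∀ x, 0 < a x → 1 < g * x.card) (hg : 0 < g) {t : ℕ} (ht : 1 < g * t) :
    (g * t - 1) + (g * (t + 1) - 1) - (g * avgCard a - 1)
      ≤ avgInv g a * ((g * t - 1) * (g * (t + 1) - 1)) := by
  have h1 : ∑ x, a x * (((g * t - 1) + (g * (t + 1) - 1) + 1) + (-g) * x.card)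
      ≤ ∑ x, a x * ((g * x.card - 1)⁻¹ * ((g * t - 1) * (g * (t + 1) - 1))) := by
    refine avg_le_avg ha (fun x hx => ?_)
    have hu : 0 < g * x.card - 1 := sub_pos.2 (hs x hx)
    have hint : (0 : ℝ) ≤ ((x.card : ℝ) - t) * (x.card - (t + 1)) := by
      rcases le_or_gt x.card t with h | h
      · have h' : (x.card : ℝ) ≤ t := by exact_mod_cast h
        exact mul_nonneg_of_nonpos_of_nonpos (by linarith) (by linarith)
      · have h' : (t : ℝ) + 1 ≤ x.card := by exact_mod_cast h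
        exact mul_nonneg (by linarith) (by linarith)
    rw [inv_mul_eq_div, le_div_iff₀ hu]
    nlinarith [mul_nonneg (sq_nonneg g) hint]
  rw [avg_affine ha1] at h1
  unfold avgInv
  rw [Finset.sum_mul]
  simp_rw [mul_assoc]
  linarith

end

/-- The product inequality with its error term. -/
lemma product_ineq {a b : Finset (Fin r) → ℝ} (ha : ∀ R, 0 ≤ a R) (hb : ∀ R, 0 ≤ b R)
    (ha1 : ∑ R, a R = 1) (hb1 : ∑ R, b R = 1)
    (hc : ∀ x y : Finset (Fin r), x ∩ y = ∅ → a x = 0 ∨ b y = 0) {g₀ g : ℝ}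
    (hg : ∀ i, marginal a i + marginal b i ≤ g₀) (hgg : g₀ ≤ g) (hg0 : 0 ≤ g₀)
    (hstrict : g₀ < g ∨ ∃ x y : Finset (Fin r), 2 ≤ (x ∩ y).card ∧ 0 < a x ∧ 0 < b y) :
    avgInv g a * avgInv g b < 1 := by
  have hg' : ∀ i, marginal a i + marginal b i ≤ g := fun i => (hg i).trans hgg
  have hc' : ∀ y x : Finset (Fin r), y ∩ x = ∅ → b y = 0 ∨ a x = 0 := fun y x h =>
    (hc x y (by rwa [Finset.inter_comm])).symm
  have hsa : ∀ x, 0 < a x → 1 < g * x.card := fun x hx => one_lt_mul_card ha hb hb1 hc hg' hx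
  have hsb : ∀ y, 0 < b y → 1 < g * y.card := fun y hy =>
    one_lt_mul_card hb ha ha1 hc' (fun i => by linarith [hg' i]) hy
  have hK := avgInv_pos ha ha1 hsa
  have hL := avgInv_pos hb hb1 hsb
  set K := avgInv g a with hKdef
  set L := avgInv g b with hLdef
  set w : Finset (Fin r) → ℝ := fun y => (g * y.card - 1)⁻¹ with hw
  set z : Finset (Fin r) → ℝ := fun x => L * (g * x.card - 1)⁻¹ with hz
  have hW := weighted ha hb hg0 hg w z
  set T := ∑ y, b y * w y ^ 2 * y.card + ∑ x, a x * z x ^ 2 * x.card with hT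
  have hEw : ∑ y, b y * w y = L := rfl
  have hEz : ∑ x, a x * z x = L * K := by
    rw [hKdef, avgInv, Finset.mul_sum]
    exact Finset.sum_congr rfl (fun x _ => by simp only [hz]; ring)
  have hw2 : g * ∑ y, b y * w y ^ 2 * y.card = ∑ y, b y * w y ^ 2 + L := by
    rw [← hEw, Finset.mul_sum, ← Finset.sum_add_distrib]
    refine Finset.sum_congr rfl (fun y _ => ?_)
    rcases (hb y).eq_or_lt with h0 | hy
    · simp [← h0]
    have hu : g * y.card - 1 ≠ 0 := (sub_pos.2 (hsb y hy)).ne'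
    simp only [hw]
    field_simp
    ring
  have hz2 : g * ∑ x, a x * z x ^ 2 * x.card = ∑ x, a x * z x ^ 2 + L * (L * K) := by
    rw [← hEz, Finset.mul_sum, Finset.mul_sum, ← Finset.sum_add_distrib]
    refine Finset.sum_congr rfl (fun x _ => ?_)
    rcases (ha x).eq_or_lt with h0 | hx
    · simp [← h0]
    have hu : g * x.card - 1 ≠ 0 := (sub_pos.2 (hsa x hx)).ne'
    simp only [hz]
    field_simp
    ring
  have hexp : ∑ x, ∑ y, a x * b y * (w y + z x) ^ 2
      = ∑ y, b y * w y ^ 2 + ∑ x, a x * z x ^ 2 + 2 * (L * (L * K)) := by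
    have h1 : ∀ x, ∑ y, a x * b y * (w y + z x) ^ 2
        = a x * (∑ y, b y * w y ^ 2) + a x * z x ^ 2 + 2 * L * (a x * z x) := by
      intro x
      have h2 : ∀ y, a x * b y * (w y + z x) ^ 2
          = a x * (b y * w y ^ 2) + a x * z x ^ 2 * b y + 2 * (a x * z x) * (b y * w y) := by
        intro y
        ring
      simp_rw [h2, Finset.sum_add_distrib, ← Finset.mul_sum, hb1, hEw]
      ring
    simp_rw [h1, Finset.sum_add_distrib, ← Finset.sum_mul, ← Finset.mul_sum, ha1, hEz]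
    ring
  have hle : ∀ x y : Finset (Fin r), a x * b y * (w y + z x) ^ 2
      ≤ a x * b y * ((x ∩ y).card * (w y + z x) ^ 2) := by
    intro x y
    rcases (ha x).eq_or_lt with h0 | hx
    · simp [← h0]
    rcases (hb y).eq_or_lt with h0 | hy
    · simp [← h0]
    have hne : (x ∩ y).Nonempty := by
      rw [Finset.nonempty_iff_ne_empty]
      intro h
      rcases hc x y h with h | h <;> linarith
    have h1 : (1 : ℝ) ≤ (x ∩ y).card := by exact_mod_cast hne.card_pos
    refine mul_le_mul_of_nonneg_left ?_ (mul_pos hx hy).le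
    nlinarith [sq_nonneg (w y + z x)]
  have hsum : ∑ x, ∑ y, a x * b y * (w y + z x) ^ 2
      ≤ ∑ x, ∑ y, a x * b y * ((x ∩ y).card * (w y + z x) ^ 2) :=
    Finset.sum_le_sum (fun x _ => Finset.sum_le_sum (fun y _ => hle x y))
  have hT0 : 0 ≤ T := by
    refine add_nonneg (Finset.sum_nonneg (fun y _ => ?_)) (Finset.sum_nonneg (fun x _ => ?_))
    · have := hb y
      positivity
    · have := ha x
      positivity
  have hgT : g * T = ∑ y, b y * w y ^ 2 + L + (∑ x, a x * z x ^ 2 + L * (L * K)) := by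
    rw [hT, mul_add, hw2, hz2]
  have hfin : ∑ x, ∑ y, a x * b y * (w y + z x) ^ 2 < g * T := by
    rcases hstrict with hlt | ⟨x, y, hxy, hx, hy⟩
    · have hTpos : 0 < T := by
        rcases hT0.eq_or_lt with h0 | h0
        · exfalso
          rw [← h0] at hgT
          have h1 : 0 ≤ ∑ y, b y * w y ^ 2 :=
            Finset.sum_nonneg (fun y _ => mul_nonneg (hb y) (sq_nonneg _))
          have h2 : 0 ≤ ∑ x, a x * z x ^ 2 :=
            Finset.sum_nonneg (fun x _ => mul_nonneg (ha x) (sq_nonneg _))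
          have h3 : 0 < L * (L * K) := by positivity
          linarith
        · exact h0
      nlinarith
    · have hlt : ∑ x, ∑ y, a x * b y * (w y + z x) ^ 2
          < ∑ x, ∑ y, a x * b y * ((x ∩ y).card * (w y + z x) ^ 2) := by
        refine Finset.sum_lt_sum (fun x _ => Finset.sum_le_sum (fun y _ => hle x y))
          ⟨x, Finset.mem_univ _, Finset.sum_lt_sum (fun y _ => hle x y)
            ⟨y, Finset.mem_univ _, ?_⟩⟩
        have h1 : (2 : ℝ) ≤ (x ∩ y).card := by exact_mod_cast hxy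
        have h2 : 0 < w y := inv_pos.2 (sub_pos.2 (hsb y hy))
        have h3 : 0 < z x := mul_pos hL (inv_pos.2 (sub_pos.2 (hsa x hx)))
        have h4 : 0 < (w y + z x) ^ 2 := by positivity
        refine mul_lt_mul_of_pos_left ?_ (mul_pos hx hy)
        nlinarith
      nlinarith
  rw [hexp, hgT] at hfin
  have h5 : L * (K * L) < L * 1 := by nlinarith
  exact lt_of_mul_lt_mul_left h5 hL.le

/-- The lower bound on the product for the value of the row construction. -/
lemma one_le_product {a b : Finset (Fin r) → ℝ} (ha : ∀ R, 0 ≤ a R) (hb : ∀ R, 0 ≤ b R)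
    (ha1 : ∑ R, a R = 1) (hb1 : ∑ R, b R = 1)
    (hc : ∀ x y : Finset (Fin r), x ∩ y = ∅ → a x = 0 ∨ b y = 0) {g : ℝ}
    (hg : ∀ i, marginal a i + marginal b i ≤ g) {t p s : ℕ} (ht : 0 < t)
    (hr : r = p * t + s * (t + 1)) (hgdef : g * (p + s) = 1 + p / t + s / (t + 1))
    (hcase : p + s = t ∨ (p + s = t + 1 ∧ 0 < p)) : 1 ≤ avgInv g a * avgInv g b := by
  have hc' : ∀ y x : Finset (Fin r), y ∩ x = ∅ → b y = 0 ∨ a x = 0 := fun y x h =>
    (hc x y (by rwa [Finset.inter_comm])).symm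
  have hsa : ∀ x, 0 < a x → 1 < g * x.card := fun x hx => one_lt_mul_card ha hb hb1 hc hg hx
  have hsb : ∀ y, 0 < b y → 1 < g * y.card := fun y hy =>
    one_lt_mul_card hb ha ha1 hc' (fun i => by linarith [hg i]) hy
  have hK := avgInv_pos ha ha1 hsa
  have hL := avgInv_pos hb hb1 hsb
  have hσ : avgCard a + avgCard b ≤ r * g := by
    unfold avgCard
    rw [sum_card_eq, sum_card_eq, ← Finset.sum_add_distrib]
    refine (Finset.sum_le_sum (fun i _ => hg i)).trans ?_
    simp
  have htR : (1 : ℝ) ≤ t := by exact_mod_cast ht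
  have hp0 : (0 : ℝ) ≤ p := Nat.cast_nonneg p
  have hs0 : (0 : ℝ) ≤ s := Nat.cast_nonneg s
  have hrR : (r : ℝ) = p * t + s * (t + 1) := by exact_mod_cast hr
  have hgdef' : g * (p + s) * (t * (t + 1)) = t * (t + 1) + p * (t + 1) + s * t := by
    rw [hgdef]
    field_simp
  rcases hcase with hA | ⟨hB, hp⟩
  · have hA' : (p : ℝ) + s = t := by exact_mod_cast hA
    rw [hA'] at hgdef'
    have h1 : 2 * t + 1 ≤ g * (t * (t + 1)) := by
      have : t * (2 * t + 1) ≤ t * (g * (t * (t + 1))) := by nlinarith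
      exact le_of_mul_le_mul_left this (by linarith)
    have hg0 : 0 < g := by
      by_contra h
      push Not at h
      nlinarith [mul_nonneg (neg_nonneg.2 h) (show (0 : ℝ) ≤ t * (t + 1) by positivity)]
    have hgt : 1 < g * t := by
      have : (t + 1) * 1 < (t + 1) * (g * t) := by nlinarith
      exact lt_of_mul_lt_mul_left this (by linarith)
    refine arithA (u := g * t - 1) (v := g * (t + 1) - 1) (σ := g * (r * g) - 2)
      (by linarith) (by nlinarith) hK.le hL.le (avgInv_jensen ha ha1 hsa)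
      (avgInv_jensen hb hb1 hsb) (avgInv_chord ha ha1 hsa hg0 hgt)
      (avgInv_chord hb hb1 hsb hg0 hgt) (by nlinarith) (by nlinarith) ?_
    have hs : (s : ℝ) = t - p := by linarith
    rw [hrR]
    rw [hs] at hgdef' ⊢
    linear_combination (-g ^ 2) * hgdef'
  · have hB' : (p : ℝ) + s = t + 1 := by exact_mod_cast hB
    have hp' : (1 : ℝ) ≤ p := by exact_mod_cast hp
    rw [hB'] at hgdef'
    have h1 : g * (t * (t + 1)) ≤ 2 * t + 1 := by
      have : (t + 1) * (g * (t * (t + 1))) ≤ (t + 1) * (2 * t + 1) := by nlinarith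
      exact le_of_mul_le_mul_left this (by linarith)
    have hgt : 1 < g * t := by
      have : (t + 1) ^ 2 * 1 < (t + 1) ^ 2 * (g * t) := by nlinarith
      exact lt_of_mul_lt_mul_left this (by positivity)
    have hg0 : 0 < g := by
      by_contra h
      push Not at h
      nlinarith [mul_nonneg (neg_nonneg.2 h) (show (0 : ℝ) ≤ t by positivity)]
    refine arithB (u := g * t - 1) (v := g * (t + 1) - 1) (σ := g * (r * g) - 2)
      (by linarith) (by nlinarith) hK.le hL.le (avgInv_jensen ha ha1 hsa)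
      (avgInv_jensen hb hb1 hsb) (avgInv_chord ha ha1 hsa hg0 hgt)
      (avgInv_chord hb hb1 hsb hg0 hgt) (by nlinarith) (by nlinarith) ?_
    have hs : (s : ℝ) = t + 1 - p := by linarith
    rw [hrR]
    rw [hs] at hgdef' ⊢
    linear_combination (-g ^ 2) * hgdef'

end Pool.Agent.MP_ab344f_co
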