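import Pool.Agent.MP_ab344f_co.Main

namespace Pool.Agent.MP_ab344f_co

open Finset

variable {r : ℕ}

/-- Push a weight on `X` forward along a map to colour sets. -/
noncomputable def push {X : Type} [Fintype X] (μ : X → ℝ) (F : X → Finset (Fin r)) :
    Finset (Fin r) → ℝ := fun R => ∑ x, if F x = R then μ x else 0

lemma push_nonneg {X : Type} [Fintype X] {μ : X → ℝ} (hμ : ∀ x, 0 ≤ μ x)
    (F : X → Finset (Fin r)) (R : Finset (Fin r)) : 0 ≤ push μ F R := by
  unfold push
  refine Finset.sum_nonneg (fun x _ => ?_)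
  split_ifs
  · exact hμ x
  · exact le_rfl

lemma push_sum {X : Type} [Fintype X] (μ : X → ℝ) (F : X → Finset (Fin r)) :
    ∑ R, push μ F R = ∑ x, μ x := by
  unfold push
  rw [Finset.sum_comm]
  simp

lemma push_mem {X : Type} [Fintype X] {μ : X → ℝ} (hμ : ∀ x, 0 ≤ μ x) (h1 : ∑ x, μ x = 1)
    (F : X → Finset (Fin r)) (R : Finset (Fin r)) : push μ F R ∈ Set.Icc (0 : ℝ) 1 := by
  refine ⟨push_nonneg hμ F R, ?_⟩
  rw [← h1, ← push_sum μ F]
  exact Finset.single_le_sum (f := push μ F) (fun R _ => push_nonneg hμ F R) (Finset.mem_univ R)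

lemma push_marginal {X : Type} [Fintype X] (μ : X → ℝ) (F : X → Finset (Fin r)) (i : Fin r) :
    marginal (push μ F) i = ∑ x, if i ∈ F x then μ x else 0 := by
  rw [marginal_eq]
  unfold push
  have : ∀ R : Finset (Fin r), (if i ∈ R then ∑ x, (if F x = R then μ x else 0) else 0)
      = ∑ x, if F x = R then (if i ∈ F x then μ x else 0) else 0 := by
    intro R
    split_ifs with h
    · refine Finset.sum_congr rfl (fun x _ => ?_)
      by_cases hx : F x = R
      · simp [hx, h]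
      · simp [hx]
    · symm
      refine Finset.sum_eq_zero (fun x _ => ?_)
      by_cases hx : F x = R
      · simp [hx, h]
      · simp [hx]
  simp_rw [this]
  rw [Finset.sum_comm]
  simp

lemma push_ne_zero {X : Type} [Fintype X] {μ : X → ℝ} {F : X → Finset (Fin r)}
    {R : Finset (Fin r)} (h : push μ F R ≠ 0) : ∃ x, F x = R := by
  by_contra hx
  push Not at hx
  apply h
  unfold push
  exact Finset.sum_eq_zero (fun x _ => by simp [hx x])

lemma push_feasible {X Y : Type} [Fintype X] [Fintype Y] {μ : X → ℝ} {ν : Y → ℝ}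
    (hμ : ∀ x, 0 ≤ μ x) (hν : ∀ y, 0 ≤ ν y) (hμ1 : ∑ x, μ x = 1) (hν1 : ∑ y, ν y = 1)
    (F : X → Finset (Fin r)) (G : Y → Finset (Fin r)) (hFG : ∀ x y, ∃ i, i ∈ F x ∧ i ∈ G y) :
    Feasible (push μ F) (push ν G) := by
  refine ⟨push_mem hμ hμ1 F, push_mem hν hν1 G, by rw [push_sum, hμ1], by rw [push_sum, hν1], ?_⟩
  intro R₁ R₂ h
  by_contra hne
  push Not at hne
  obtain ⟨x, rfl⟩ := push_ne_zero hne.1
  obtain ⟨y, rfl⟩ := push_ne_zero hne.2
  obtain ⟨i, hi1, hi2⟩ := hFG x y
  have : i ∈ F x ∩ G y := Finset.mem_inter.2 ⟨hi1, hi2⟩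
  rw [h] at this
  simp at this

/-- The row construction: `p` rows of `t` colours and `s` rows of `t + 1` colours. -/
lemma exists_rows {t p s : ℕ} (ht : 0 < t) (hr : r = p * t + s * (t + 1)) {g : ℝ}
    (hgdef : g * (p + s) = 1 + p / t + s / (t + 1)) (hgt : 1 ≤ g * t) :
    ∃ a b : Finset (Fin r) → ℝ, Feasible a b ∧ ∀ i, marginal a i + marginal b i = g := by
  classical
  have hcard : Fintype.card ((Fin p × Fin t) ⊕ (Fin s × Fin (t + 1))) = r := by
    simp [hr]
  let e := Fintype.equivFinOfCardEq hcard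
  let inc : Fin t × Fin (t + 1) → (Fin p × Fin t) ⊕ (Fin s × Fin (t + 1)) → Prop :=
    fun x j => Sum.elim (fun c => x.1 = c.2) (fun c => x.2 = c.2) j
  let row : (Fin p × Fin t) ⊕ (Fin s × Fin (t + 1)) → Fin p ⊕ Fin s :=
    Sum.map Prod.fst Prod.fst
  let F : Fin t × Fin (t + 1) → Finset (Fin r) :=
    fun x => Finset.univ.filter (fun i => inc x (e.symm i))
  let G : Fin p ⊕ Fin s → Finset (Fin r) :=
    fun y => Finset.univ.filter (fun i => y = row (e.symm i))
  let μ : Fin t × Fin (t + 1) → ℝ := fun _ => 1 / (t * (t + 1))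
  let ν : Fin p ⊕ Fin s → ℝ := Sum.elim (fun _ => g - 1 / t) (fun _ => g - 1 / (t + 1))
  have htR : (0 : ℝ) < t := by exact_mod_cast ht
  have h1 : 1 / (t : ℝ) ≤ g := by rwa [div_le_iff₀ htR]
  have h2 : 1 / ((t : ℝ) + 1) ≤ 1 / t := one_div_le_one_div_of_le htR (by linarith)
  refine ⟨push μ F, push ν G, push_feasible (fun x => by positivity) ?_ ?_ ?_ F G ?_, ?_⟩
  · rintro (y | y) <;> simp only [ν, Sum.elim_inl, Sum.elim_inr] <;> linarith
  · simp only [μ, Finset.sum_const, Finset.card_univ, Fintype.card_prod, Fintype.card_fin,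
      nsmul_eq_mul]
    push_cast
    field_simp
  · simp only [ν, Fintype.sum_sum_type, Sum.elim_inl, Sum.elim_inr, Finset.sum_const,
      Finset.card_univ, Fintype.card_fin, nsmul_eq_mul]
    have : (p : ℝ) * (g - 1 / t) + s * (g - 1 / (t + 1)) = g * (p + s) - p / t - s / (t + 1) := by
      ring
    rw [this, hgdef]
    ring
  · rintro x (y | y)
    · exact ⟨e (Sum.inl (y, x.1)), by simp [F, inc], by simp [G, row]⟩
    · exact ⟨e (Sum.inr (y, x.2)), by simp [F, inc], by simp [G, row]⟩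
  · intro i
    obtain ⟨j, rfl⟩ := e.surjective i
    rw [push_marginal, push_marginal]
    simp only [F, G, Finset.mem_filter, Finset.mem_univ, true_and, Equiv.symm_apply_apply]
    rcases j with ⟨j, c⟩ | ⟨j, c⟩
    · simp only [inc, row, Sum.elim_inl, Sum.map_inl, Finset.sum_ite_eq', Finset.mem_univ,
        if_true, ν, μ, Fintype.sum_prod_type]
      rw [Finset.sum_comm]
      simp only [Finset.sum_ite_eq', Finset.mem_univ, if_true, Finset.sum_const,
        Finset.card_univ, Fintype.card_fin, nsmul_eq_mul]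
      push_cast
      field_simp
      ring
    · simp only [inc, row, Sum.elim_inr, Sum.map_inr, Finset.sum_ite_eq', Finset.mem_univ,
        if_true, ν, μ, Fintype.sum_prod_type]
      simp only [Finset.sum_const, Finset.card_univ, Fintype.card_fin, nsmul_eq_mul]
      field_simp
      ring

lemma le_cost (a b : Finset (Fin r) → ℝ) (i : Fin r) :
    marginal a i + marginal b i ≤ cost a b :=
  le_ciSup (f := fun i => marginal a i + marginal b i) (Finite.bddAbove_range _) i

lemma cost_eq (hr : 0 < r) {a b : Finset (Fin r) → ℝ} {g : ℝ}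
    (h : ∀ i, marginal a i + marginal b i = g) : cost a b = g := by
  haveI : Nonempty (Fin r) := ⟨⟨0, hr⟩⟩
  unfold cost
  simp_rw [h]
  exact ciSup_const

/-- Everything about a given row shape. -/
lemma main_of_shape (hr0 : 0 < r) {t p s : ℕ} (ht : 0 < t) (hr : r = p * t + s * (t + 1)) {g : ℝ}
    (hgdef : g * (p + s) = 1 + p / t + s / (t + 1))
    (hcase : p + s = t ∨ (p + s = t + 1 ∧ 0 < p)) :
    (∃ a b : Finset (Fin r) → ℝ, Feasible a b ∧ cost a b = g) ∧
    ∀ a b : Finset (Fin r) → ℝ, Feasible a b → cost a b ≤ g →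
      ¬ (cost a b < g ∨ ∃ x y : Finset (Fin r), 2 ≤ (x ∩ y).card ∧ 0 < a x ∧ 0 < b y) := by
  constructor
  · have htR : (1 : ℝ) ≤ t := by exact_mod_cast ht
    have hp0 : (0 : ℝ) ≤ p := Nat.cast_nonneg p
    have hs0 : (0 : ℝ) ≤ s := Nat.cast_nonneg s
    have hgdef' : g * (p + s) * (t * (t + 1)) = t * (t + 1) + p * (t + 1) + s * t := by
      rw [hgdef]
      field_simp
    have hgt : 1 ≤ g * t := by
      rcases hcase with hA | ⟨hB, _⟩
      · have hA' : (p : ℝ) + s = t := by exact_mod_cast hA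
        rw [hA'] at hgdef'
        have : (t * (t + 1)) * 1 ≤ (t * (t + 1)) * (g * t) := by nlinarith
        exact le_of_mul_le_mul_left this (by positivity)
      · have hB' : (p : ℝ) + s = t + 1 := by exact_mod_cast hB
        rw [hB'] at hgdef'
        have : (t + 1) ^ 2 * 1 ≤ (t + 1) ^ 2 * (g * t) := by nlinarith
        exact le_of_mul_le_mul_left this (by positivity)
    obtain ⟨a, b, hab, h⟩ := exists_rows ht hr hgdef hgt
    exact ⟨a, b, hab, cost_eq hr0 h⟩
  · rintro a b ⟨ha, hb, ha1, hb1, hc⟩ hle hstrict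
    have ha0 : ∀ R, 0 ≤ a R := fun R => (ha R).1
    have hb0 : ∀ R, 0 ≤ b R := fun R => (hb R).1
    have h0 : 0 ≤ cost a b :=
      (add_nonneg (marginal_nonneg ha0 _) (marginal_nonneg hb0 _)).trans (le_cost a b ⟨0, hr0⟩)
    have h1 := product_ineq ha0 hb0 ha1 hb1 hc (le_cost a b) hle h0 hstrict
    have h2 := one_le_product ha0 hb0 ha1 hb1 hc (fun i => (le_cost a b i).trans hle) ht hr hgdef
      hcase
    linarith

lemma exists_shape (hr0 : 0 < r) : ∃ t p s : ℕ, 0 < t ∧ r = p * t + s * (t + 1) ∧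
    (p + s = t ∨ (p + s = t + 1 ∧ 0 < p)) := by
  have h1 := Nat.sqrt_le r
  have h2 := Nat.lt_succ_sqrt r
  have h3 : 0 < Nat.sqrt r := Nat.sqrt_pos.2 hr0
  set t := Nat.sqrt r
  rcases le_total r (t * t + t) with h | h
  · obtain ⟨s, hs⟩ := Nat.exists_eq_add_of_le h1
    have hst : s ≤ t := by omega
    obtain ⟨p, hp⟩ := Nat.exists_eq_add_of_le hst
    refine ⟨t, p, s, h3, ?_, Or.inl (by omega)⟩
    have : t * t = (s + p) * t := by rw [← hp]
    nlinarith
  · obtain ⟨s, hs⟩ := Nat.exists_eq_add_of_le h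
    have hst : s ≤ t := by
      have : (t + 1) * (t + 1) = t * t + t + t + 1 := by ring
      simp only [Nat.succ_eq_add_one] at h2
      omega
    obtain ⟨p, hp⟩ := Nat.exists_eq_add_of_le hst
    refine ⟨t, p + 1, s, h3, ?_, Or.inr ⟨by omega, by omega⟩⟩
    have : t * t = (s + p) * t := by rw [← hp]
    nlinarith

theorem no_overlap (hr0 : 0 < r) (a b : Finset (Fin r) → ℝ) (hab : Feasible a b)
    (hopt : ∀ a' b' : Finset (Fin r) → ℝ, Feasible a' b' → cost a b ≤ cost a' b') :
    ¬ ∃ R₁ R₂ : Finset (Fin r), 2 ≤ (R₁ ∩ R₂).card ∧ 0 < a R₁ ∧ 0 < b R₂ := by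
  obtain ⟨t, p, s, ht, hr, hcase⟩ := exists_shape hr0
  have hps : (0 : ℝ) < p + s := by
    have : 0 < p + s := by omega
    exact_mod_cast this
  obtain ⟨⟨a', b', h', hc'⟩, h⟩ := main_of_shape hr0 ht hr
    (g := (1 + p / t + s / (t + 1)) / (p + s)) (div_mul_cancel₀ _ hps.ne') hcase
  intro hex
  exact h a b hab (hc' ▸ hopt a' b' h') (Or.inr hex)

end Pool.Agent.MP_ab344f_co
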