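import Pool.Agent.MP_ab344f_co.Rows

namespace Pool.Agent.MP_ab344f_co

theorem exact_value {r t m : ℕ} (ht : 0 < t) (h1 : t ^ 2 ≤ r) (h2 : r < (t + 1) ^ 2)
    (hm : m = if r ≤ t ^ 2 + t then t else t + 1) :
    IsLeast {c : ℝ | ∃ a b : Finset (Fin r) → ℝ, Feasible a b ∧ cost a b = c}
      ((1 + ((m : ℝ) * (2 * t + 1) - r) / (t * (t + 1))) / m) := by
  have hr0 : 0 < r := lt_of_lt_of_le (by positivity) h1
  have hshape : ∃ p s : ℕ, r = p * t + s * (t + 1) ∧ p + s = m ∧
      (p + s = t ∨ (p + s = t + 1 ∧ 0 < p)) := by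
    split_ifs at hm with h
    · obtain ⟨s, hs⟩ := Nat.exists_eq_add_of_le h1
      have hst : s ≤ t := by omega
      obtain ⟨p, hp⟩ := Nat.exists_eq_add_of_le hst
      refine ⟨p, s, ?_, by omega, Or.inl (by omega)⟩
      have : t * t = (s + p) * t := by rw [← hp]
      nlinarith
    · obtain ⟨s, hs⟩ := Nat.exists_eq_add_of_le (not_le.1 h).le
      have hst : s ≤ t := by
        have : (t + 1) ^ 2 = t ^ 2 + t + t + 1 := by ring
        omega
      obtain ⟨p, hp⟩ := Nat.exists_eq_add_of_le hst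
      refine ⟨p + 1, s, ?_, by omega, Or.inr ⟨by omega, by omega⟩⟩
      have : t * t = (s + p) * t := by rw [← hp]
      nlinarith
  obtain ⟨p, s, hr, hps, hcase⟩ := hshape
  have hm0 : (0 : ℝ) < m := by
    have : 0 < m := by omega
    exact_mod_cast this
  have htR : (0 : ℝ) < t := by exact_mod_cast ht
  have hpsR : (p : ℝ) + s = m := by exact_mod_cast hps
  have hrR : (r : ℝ) = p * t + s * (t + 1) := by exact_mod_cast hr
  have hg : ((1 + ((m : ℝ) * (2 * t + 1) - r) / (t * (t + 1))) / m) * (p + s)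
      = 1 + p / t + s / (t + 1) := by
    rw [hpsR, div_mul_cancel₀ _ hm0.ne', hrR, ← hpsR]
    field_simp
    ring
  obtain ⟨hex, h⟩ := main_of_shape hr0 ht hr hg hcase
  refine ⟨hex, ?_⟩
  rintro c ⟨a, b, hab, rfl⟩
  by_contra hlt
  push Not at hlt
  exact h a b hab hlt.le (Or.inl hlt)

end Pool.Agent.MP_ab344f_co
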